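import Pool.Agent.H408BCM.Stmts

/-!
# Project BCM408, task S (helper235)
-/

set_option autoImplicit false

namespace Pool.Agent.H235R3.BCM

open Pool.Agent.H408BCM MvPolynomial

variable (k : Type) [Field k]

theorem X_mem (i : Fin 2) : (X i : A k) ∈ mA k := by
  rw [RingHom.mem_ker, constantCoeff_X]

theorem mA_eq : mA k = Ideal.span {X 0, X 1} := by
  apply le_antisymm
  · intro f hf
    rw [RingHom.mem_ker] at hf
    have h1 : f ∈ Ideal.span (X '' (Set.univ : Set (Fin 2)) : Set (MvPolynomial (Fin 2) k)) := by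
      rw [mem_ideal_span_X_image]
      intro m hm
      by_contra hcon
      have h0 : m = 0 := by
        ext i
        by_contra hi
        exact hcon ⟨i, Set.mem_univ _, hi⟩
      rw [h0, mem_support_iff, ← constantCoeff_eq] at hm
      exact hm hf
    refine Ideal.span_mono ?_ h1
    rintro _ ⟨i, -, rfl⟩
    fin_cases i
    · exact Or.inl rfl
    · exact Or.inr rfl
  · rw [Ideal.span_le]
    rintro g (rfl | hg)
    · exact X_mem k 0
    · rw [Set.mem_singleton_iff] at hg
      subst hg
      exact X_mem k 1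

theorem max_eq : IsLocalRing.maximalIdeal (R k) = Ideal.span {rx k 0, rx k 1} := by
  have h1 : Ideal.map (algebraMap (A k) (R k)) (mA k) = IsLocalRing.maximalIdeal (R k) :=
    Localization.AtPrime.map_eq_maximalIdeal
  have h2 : Ideal.map (algebraMap (A k) (R k)) (mA k) =
      Ideal.map (algebraMap (A k) (R k)) (Ideal.span {X 0, X 1}) :=
    congrArg (Ideal.map (algebraMap (A k) (R k))) (mA_eq k)
  rw [← h1, h2, Ideal.map_span, Set.image_pair]

theorem inj : Function.Injective (algebraMap (A k) (R k)) :=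
  IsLocalization.injective (R k) (mA k).primeCompl_le_nonZeroDivisors

instance : IsDomain (R k) :=
  IsLocalization.isDomain_localization (mA k).primeCompl_le_nonZeroDivisors

theorem rx_ne (i : Fin 2) : rx k i ≠ 0 := by
  intro h
  have h1 : (X i : A k) = 0 := inj k (by rw [map_zero]; exact h)
  exact X_ne_zero i h1

theorem disj (i : Fin 2) : Disjoint ((mA k).primeCompl : Set (A k))
    ((Ideal.span {(X i : A k)} : Ideal (A k)) : Set (A k)) := by
  rw [Set.disjoint_left]
  intro f hf hf2
  apply hf
  have h1 : Ideal.span {(X i : A k)} ≤ mA k := by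
    rw [Ideal.span_le]
    intro g hg
    rw [Set.mem_singleton_iff] at hg
    subst hg
    exact X_mem k i
  exact h1 hf2

theorem span_prime (i : Fin 2) : (Ideal.span {(X i : A k)} : Ideal (A k)).IsPrime :=
  (Ideal.span_singleton_prime (X_ne_zero i)).2 X_prime

theorem map_span (i : Fin 2) : Ideal.map (algebraMap (A k) (R k)) (Ideal.span {(X i : A k)}) =
    Ideal.span {rx k i} := by
  rw [Ideal.map_span, Set.image_singleton]

theorem rx_prime (i : Fin 2) : Prime (rx k i) := by
  have h1 := IsLocalization.isPrime_of_isPrime_disjoint (mA k).primeCompl (R k) _ (span_prime k i)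
    (disj k i)
  rw [map_span] at h1
  exact (Ideal.span_singleton_prime (rx_ne k i)).1 h1

theorem not_dvd : ¬ rx k 0 ∣ rx k 1 := by
  intro h
  have h2 := IsLocalization.under_map_of_isPrime_disjoint (mA k).primeCompl (R k)
    (span_prime k 0) (disj k 0)
  rw [map_span] at h2
  have h3 : (X 1 : A k) ∈ Ideal.under (A k) (Ideal.span {rx k 0}) := by
    change algebraMap (A k) (R k) (X 1) ∈ Ideal.span {rx k 0}
    rw [Ideal.mem_span_singleton]
    exact h
  rw [h2, Ideal.mem_span_singleton, X_dvd_X] at h3
  exact absurd h3 (by decide)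

theorem rx_mem_max (i : Fin 2) : rx k i ∈ IsLocalRing.maximalIdeal (R k) := by
  rw [max_eq]
  apply Ideal.subset_span
  fin_cases i
  · exact Or.inl rfl
  · exact Or.inr rfl

theorem ne_bot : (Ideal.ofList ([] : List (R k))).radical ≠ IsLocalRing.maximalIdeal (R k) := by
  intro h
  rw [Ideal.ofList_nil] at h
  have h1 : rx k 0 ∈ (⊥ : Ideal (R k)).radical := by
    rw [h]
    exact rx_mem_max k 0
  obtain ⟨n, hn⟩ := h1
  rw [Ideal.mem_bot] at hn
  exact pow_ne_zero n (rx_ne k 0) hn

theorem single (f : R k) : (Ideal.span {f}).radical ≠ IsLocalRing.maximalIdeal (R k) := by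
  intro h
  have hx : rx k 0 ∈ (Ideal.span {f}).radical := by
    rw [h]
    exact rx_mem_max k 0
  have hy : rx k 1 ∈ (Ideal.span {f}).radical := by
    rw [h]
    exact rx_mem_max k 1
  have hf : f ∈ IsLocalRing.maximalIdeal (R k) := by
    rw [← h]
    exact Ideal.le_radical (Ideal.mem_span_singleton_self f)
  obtain ⟨n, hn⟩ := hx
  obtain ⟨m, hm⟩ := hy
  rw [Ideal.mem_span_singleton] at hn hm
  obtain ⟨i, -, hi⟩ := (dvd_prime_pow (rx_prime k 0) n).1 hn
  rcases Nat.eq_zero_or_pos i with rfl | hpos
  · rw [pow_zero] at hi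
    have hu : IsUnit f := (associated_one_iff_isUnit).1 hi
    exact (IsLocalRing.mem_maximalIdeal f).1 hf hu
  · have h1 : rx k 0 ∣ rx k 0 ^ i := dvd_pow_self _ (by omega)
    have h2 : rx k 0 ∣ rx k 1 ^ m := h1.trans (hi.symm.dvd.trans hm)
    exact not_dvd k ((rx_prime k 0).dvd_of_dvd_pow h2)

theorem two_le (rs : List (R k))
    (h : (Ideal.ofList rs).radical = IsLocalRing.maximalIdeal (R k)) : 2 ≤ rs.length := by
  match rs, h with
  | [], h => exact absurd h (ne_bot k)
  | [f], h =>
    rw [Ideal.ofList_singleton] at h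
    exact absurd h (single k f)
  | _ :: _ :: l, _ =>
    simp only [List.length_cons]
    omega

theorem ofList_pair (f g : R k) : Ideal.ofList [f, g] = Ideal.span {f, g} := by
  rw [Ideal.ofList_cons, Ideal.ofList_singleton, ← Ideal.span_union]
  rfl

theorem sop_xy : (Ideal.ofList [rx k 0, rx k 1]).radical = IsLocalRing.maximalIdeal (R k) := by
  rw [ofList_pair, ← max_eq]
  exact (IsLocalRing.maximalIdeal.isMaximal (R k)).isPrime.radical

theorem taskS : TaskS := by
  intro k _
  refine ⟨⟨sop_xy k, fun rs' h => ?_⟩, fun rs hrs => ?_⟩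
  · simpa using two_le k rs' h
  · have h1 : rs.length = 2 := by
      have h2 := hrs.2 _ (sop_xy k)
      have h3 := two_le k rs hrs.1
      simp only [List.length_cons, List.length_nil] at h2
      omega
    obtain ⟨f, g, rfl⟩ := List.length_eq_two.1 h1
    have h4 := hrs.1
    rw [ofList_pair] at h4
    have hpow : ∀ i : Fin 2, ∃ α β : R k, ∃ N : ℕ, α * f + β * g = rx k i ^ N := by
      intro i
      have h5 : rx k i ∈ (Ideal.span {f, g}).radical := by
        rw [h4]
        exact rx_mem_max k i
      obtain ⟨N, hN⟩ := h5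
      obtain ⟨α, β, h6⟩ := Ideal.mem_span_pair.1 hN
      exact ⟨α, β, N, h6⟩
    have hmem : ∀ e : R k, e ∈ Ideal.span {f, g} → e ∈ Ideal.span {rx k 0, rx k 1} := by
      intro e he
      rw [← max_eq, ← h4]
      exact Ideal.le_radical he
    refine ⟨f, g, rfl, ?_, hpow 0, hpow 1, hmem f (Ideal.subset_span (Or.inl rfl)),
      hmem g (Ideal.subset_span (Or.inr rfl))⟩
    rintro rfl
    have h7 : (Ideal.span {(0 : R k), g}) = Ideal.span {g} := by
      rw [Ideal.span_insert, Ideal.span_singleton_zero, bot_sup_eq]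
    rw [h7] at h4
    exact single k g h4

end Pool.Agent.H235R3.BCM
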